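import Mathlib

set_option autoImplicit false

/-!
# Minimal wall length of square tilings by distinct rectangles

`T j = j (j + 1) / 2`.  We prove that for `m ≥ 6` and `T (m-3) + 2 ≤ n < T (m-1)` (in particular in
the whole middle regime `T (m-2) ≤ n < T (m-1)`) the minimal internal wall length of a tiling of
`[0,n]²` by `m` rectangles with integer sides and pairwise distinct shapes is `n + 2 (m - 2)`.

Lower bound.  A generic grid of `n × n` sample points turns a tiling into a combinatorial one.  If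
no tile has full width and none has full height, each line meets two tiles and `W ≥ 2 n`.
Otherwise, up to symmetry, a tile of full width and height `n - H` exists and the other tiles have height
at most `H`.  If no other tile has height `H`, then `W ≥ 2 n` again.  `H = 1` is impossible by
`n < T (m-1)`; `H = 2` follows from a parity and distinctness count for the tiles of height one;
for `H ≥ 3` the inequality follows by adding `H (a + b - 2) - a b ≥ 1` (valid for all other tiles
but a `1 × 1` tile, for which the left side is `-1`) and the area identity.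

Upper bound.  An `n × (n-2)` tile over a strip of height two, which is tiled by a `3 × 1`, a
`1 × 1`, a `2 × 1` tile and tiles `w × 2` with distinct `w ≥ 2`.
-/

namespace Pool.Agent.Results.MP_88b750_co.MiddleRegime

/-- A tiling of the square `[0,n]²` by `m` axis-parallel closed rectangles with positive integer
side lengths and pairwise disjoint interiors.  Tile `i` has lower left corner `(x i, y i)`
(an arbitrary point of the plane), width `a i` and height `b i`. -/
structure Tiling (n m : ℕ) where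
  x : Fin m → ℝ
  y : Fin m → ℝ
  a : Fin m → ℕ
  b : Fin m → ℕ
  a_pos : ∀ i, 0 < a i
  b_pos : ∀ i, 0 < b i
  cover : (⋃ i, Set.Icc (x i) (x i + a i) ×ˢ Set.Icc (y i) (y i + b i)) =
    Set.Icc (0 : ℝ) n ×ˢ Set.Icc (0 : ℝ) n
  disj : ∀ i j, i ≠ j →
    Disjoint (interior (Set.Icc (x i) (x i + a i) ×ˢ Set.Icc (y i) (y i + b i)))
      (interior (Set.Icc (x j) (x j + a j) ×ˢ Set.Icc (y j) (y j + b j)))

/-- The tiling is admissible: the unordered pairs `{a i, b i}` are pairwise distinct. -/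
def Tiling.Admissible {n m : ℕ} (T : Tiling n m) : Prop :=
  Function.Injective fun i => s(T.a i, T.b i)

/-- The internal wall length `W = ∑ (a i + b i) - 2 n`. -/
def Tiling.wall {n m : ℕ} (T : Tiling n m) : ℤ :=
  ∑ i, ((T.a i : ℤ) + T.b i) - 2 * n

/-! ### Discretisation -/

/-- A generic offset: `ε ∈ (0,1)` such that no `x i - ε` is an integer. -/
theorem exists_offset {m : ℕ} (x : Fin m → ℝ) :
    ∃ ε : ℝ, 0 < ε ∧ ε < 1 ∧ ∀ i, ∀ z : ℤ, x i - ε ≠ z := by
  have hfin : (Set.range fun i => Int.fract (x i)).Finite := Set.finite_range _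
  have hinf : (Set.Ioo (0 : ℝ) 1).Infinite := Set.Ioo_infinite (by norm_num)
  obtain ⟨ε, hε, hn⟩ := (hinf.sdiff hfin).nonempty
  refine ⟨ε, hε.1, hε.2, ?_⟩
  intro i z h
  apply hn
  refine ⟨i, ?_⟩
  have : x i = z + ε := by linarith
  simp only
  rw [this, Int.fract_intCast_add, Int.fract_eq_self]
  exact ⟨hε.1.le, hε.2⟩

/-- The one-dimensional indicator: does the interval `(x, x + a)` contain `c + ε`? -/
noncomputable def ind {m : ℕ} (x : Fin m → ℝ) (a : Fin m → ℕ) (ε : ℝ) (i : Fin m) (c : ℕ) : ℕ :=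
  open Classical in if x i < c + ε ∧ (c : ℝ) + ε < x i + a i then 1 else 0

theorem sum_ind {m n : ℕ} (x : Fin m → ℝ) (a : Fin m → ℕ) (ε : ℝ) (hε0 : 0 < ε) (hε1 : ε < 1)
    (hε : ∀ i, ∀ z : ℤ, x i - ε ≠ z) (i : Fin m) (h0 : 0 ≤ x i) (h1 : x i + a i ≤ n) :
    ∑ c ∈ Finset.range n, ind x a ε i c = a i := by
  classical
  have hset : (Finset.range n).filter (fun c : ℕ => x i < c + ε ∧ (c : ℝ) + ε < x i + a i) =
      Finset.Ico ⌈x i - ε⌉₊ (⌈x i - ε⌉₊ + a i) := by
    have hc1 : x i - ε < ⌈x i - ε⌉₊ := by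
      refine lt_of_le_of_ne (Nat.le_ceil _) ?_
      intro h
      exact hε i (⌈x i - ε⌉₊ : ℤ) (by rw [h]; simp)
    have hc2 : (⌈x i - ε⌉₊ : ℝ) < x i - ε + 1 := by
      by_cases hneg : x i - ε ≤ 0
      · rw [Nat.ceil_eq_zero.2 hneg]
        push_cast
        linarith
      · exact Nat.ceil_lt_add_one (by linarith)
    ext c
    simp only [Finset.mem_filter, Finset.mem_range, Finset.mem_Ico]
    constructor
    · rintro ⟨_, h2, h3⟩
      constructor
      · exact Nat.ceil_le.2 (by linarith)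
      · have : (c : ℝ) < ⌈x i - ε⌉₊ + a i := by linarith
        exact_mod_cast this
    · rintro ⟨h2, h3⟩
      have h2' : (⌈x i - ε⌉₊ : ℝ) ≤ c := by exact_mod_cast h2
      have h3' : (c : ℝ) + 1 ≤ ⌈x i - ε⌉₊ + a i := by exact_mod_cast h3
      refine ⟨?_, by linarith, by linarith⟩
      have : (c : ℝ) < n := by linarith
      exact_mod_cast this
  unfold ind
  rw [← Finset.sum_filter, hset]
  simp

theorem ind_eq_one_iff {m : ℕ} (x : Fin m → ℝ) (a : Fin m → ℕ) (ε : ℝ) (i : Fin m) (c : ℕ) :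
    ind x a ε i c = 1 ↔ x i < c + ε ∧ (c : ℝ) + ε < x i + a i := by
  classical
  unfold ind
  split_ifs with h
  · simp [h]
  · simp [h]

theorem ind_le_one {m : ℕ} (x : Fin m → ℝ) (a : Fin m → ℕ) (ε : ℝ) (i : Fin m) (c : ℕ) :
    ind x a ε i c ≤ 1 := by
  classical
  unfold ind
  split_ifs <;> simp

theorem ind_eq_zero_or {m : ℕ} (x : Fin m → ℝ) (a : Fin m → ℕ) (ε : ℝ) (i : Fin m) (c : ℕ) :
    ind x a ε i c = 0 ∨ ind x a ε i c = 1 := by
  have := ind_le_one x a ε i c
  omega

theorem interior_rect (x y : ℝ) (a b : ℝ) :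
    interior (Set.Icc x (x + a) ×ˢ Set.Icc y (y + b)) = Set.Ioo x (x + a) ×ˢ Set.Ioo y (y + b) := by
  rw [interior_prod_eq, interior_Icc, interior_Icc]

theorem strict_of_generic {z a : ℕ} {x ε : ℝ} (hε : ∀ k : ℤ, x - ε ≠ k)
    (h : (z : ℝ) + ε ∈ Set.Icc x (x + a)) : x < z + ε ∧ (z : ℝ) + ε < x + a := by
  constructor
  · refine lt_of_le_of_ne h.1 ?_
    intro h'
    exact hε z (by rw [h']; push_cast; ring)
  · refine lt_of_le_of_ne h.2 ?_
    intro h'
    apply hε ((z : ℤ) - a)
    push_cast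
    linarith

theorem sum_ind_mul_ind {n m : ℕ} (T : Tiling n m) (ε δ : ℝ) (hε0 : 0 < ε) (hε1 : ε < 1)
    (hδ0 : 0 < δ) (hδ1 : δ < 1)
    (hε : ∀ i, ∀ z : ℤ, T.x i - ε ≠ z) (hδ : ∀ i, ∀ z : ℤ, T.y i - δ ≠ z) (c d : ℕ)
    (hc : c < n) (hd : d < n) :
    ∑ i, ind T.x T.a ε i c * ind T.y T.b δ i d = 1 := by
  have hc' : (c : ℝ) + 1 ≤ n := by exact_mod_cast hc
  have hd' : (d : ℝ) + 1 ≤ n := by exact_mod_cast hd
  have hc0 : (0 : ℝ) ≤ c := by positivity
  have hd0 : (0 : ℝ) ≤ d := by positivity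
  have hmem : ((c : ℝ) + ε, (d : ℝ) + δ) ∈ Set.Icc (0 : ℝ) n ×ˢ Set.Icc (0 : ℝ) n :=
    ⟨⟨by simp only; linarith, by simp only; linarith⟩,
      ⟨by simp only; linarith, by simp only; linarith⟩⟩
  rw [← T.cover, Set.mem_iUnion] at hmem
  obtain ⟨i, hi⟩ := hmem
  have h1 := strict_of_generic (hε i) hi.1
  have h2 := strict_of_generic (hδ i) hi.2
  rw [Finset.sum_eq_single i]
  · rw [(ind_eq_one_iff _ _ _ _ _).2 h1, (ind_eq_one_iff _ _ _ _ _).2 h2]
  · intro j _ hj
    by_contra hne
    have hj1 : ind T.x T.a ε j c = 1 := by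
      rcases ind_eq_zero_or T.x T.a ε j c with h | h
      · exact absurd (by rw [h, zero_mul]) hne
      · exact h
    have hj2 : ind T.y T.b δ j d = 1 := by
      rcases ind_eq_zero_or T.y T.b δ j d with h | h
      · exact absurd (by rw [h, mul_zero]) hne
      · exact h
    rw [ind_eq_one_iff] at hj1 hj2
    have hdis := T.disj j i hj
    rw [interior_rect, interior_rect, Set.disjoint_left] at hdis
    exact hdis (a := ((c : ℝ) + ε, (d : ℝ) + δ)) ⟨hj1, hj2⟩ ⟨h1, h2⟩
  · intro h
    exact absurd (Finset.mem_univ i) h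

/-- every tile lies in the square -/
theorem Tiling.mem_square {n m : ℕ} (T : Tiling n m) (i : Fin m) :
    (0 ≤ T.x i ∧ T.x i + T.a i ≤ n) ∧ (0 ≤ T.y i ∧ T.y i + T.b i ≤ n) := by
  have ha : (0 : ℝ) ≤ T.a i := by positivity
  have hb : (0 : ℝ) ≤ T.b i := by positivity
  have h1 : ((T.x i, T.y i) : ℝ × ℝ) ∈ Set.Icc (0 : ℝ) n ×ˢ Set.Icc (0 : ℝ) n := by
    rw [← T.cover, Set.mem_iUnion]
    exact ⟨i, ⟨⟨le_refl _, by simp only; linarith⟩, ⟨le_refl _, by simp only; linarith⟩⟩⟩
  have h2 : ((T.x i + T.a i, T.y i + T.b i) : ℝ × ℝ) ∈ Set.Icc (0 : ℝ) n ×ˢ Set.Icc (0 : ℝ) n := by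
    rw [← T.cover, Set.mem_iUnion]
    exact ⟨i, ⟨⟨by simp only; linarith, le_refl _⟩, ⟨by simp only; linarith, le_refl _⟩⟩⟩
  exact ⟨⟨h1.1.1, h2.1.2⟩, ⟨h1.2.1, h2.2.2⟩⟩

/-- A discretised tiling: `α i c` tells whether tile `i` meets the (open) column `c`, and `β i d`
whether it meets row `d`. -/
structure Grid (n m : ℕ) where
  a : Fin m → ℕ
  b : Fin m → ℕ
  a_pos : ∀ i, 0 < a i
  b_pos : ∀ i, 0 < b i
  α : Fin m → ℕ → ℕ
  β : Fin m → ℕ → ℕ
  α_le : ∀ i c, α i c ≤ 1
  β_le : ∀ i d, β i d ≤ 1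
  sum_α : ∀ i, ∑ c ∈ Finset.range n, α i c = a i
  sum_β : ∀ i, ∑ d ∈ Finset.range n, β i d = b i
  cell : ∀ c d, c < n → d < n → ∑ i, α i c * β i d = 1

theorem Tiling.exists_grid {n m : ℕ} (T : Tiling n m) : ∃ G : Grid n m, G.a = T.a ∧ G.b = T.b := by
  obtain ⟨ε, hε0, hε1, hε⟩ := exists_offset T.x
  obtain ⟨δ, hδ0, hδ1, hδ⟩ := exists_offset T.y
  exact ⟨{ a := T.a
           b := T.b
           a_pos := T.a_pos
           b_pos := T.b_pos
           α := ind T.x T.a ε
           β := ind T.y T.b δ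
           α_le := ind_le_one _ _ _
           β_le := ind_le_one _ _ _
           sum_α := fun i => sum_ind _ _ _ hε0 hε1 hε i (T.mem_square i).1.1 (T.mem_square i).1.2
           sum_β := fun i => sum_ind _ _ _ hδ0 hδ1 hδ i (T.mem_square i).2.1 (T.mem_square i).2.2
           cell := sum_ind_mul_ind T ε δ hε0 hε1 hδ0 hδ1 hε hδ }, rfl, rfl⟩

/-- reflection in the diagonal -/
def Grid.swap {n m : ℕ} (G : Grid n m) : Grid n m where
  a := G.b
  b := G.a
  a_pos := G.b_pos
  b_pos := G.a_pos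
  α := G.β
  β := G.α
  α_le := G.β_le
  β_le := G.α_le
  sum_α := G.sum_β
  sum_β := G.sum_α
  cell := fun c d hc hd => by
    rw [← G.cell d c hd hc]
    exact Finset.sum_congr rfl fun i _ => mul_comm _ _

/-- the heights of the tiles meeting a given column add up to `n` -/
theorem Grid.column {n m : ℕ} (G : Grid n m) (c : ℕ) (hc : c < n) :
    ∑ i, G.α i c * G.b i = n := by
  calc ∑ i, G.α i c * G.b i = ∑ i, ∑ d ∈ Finset.range n, G.α i c * G.β i d := by
        refine Finset.sum_congr rfl fun i _ => ?_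
        rw [← G.sum_β i, Finset.mul_sum]
    _ = ∑ d ∈ Finset.range n, ∑ i, G.α i c * G.β i d := Finset.sum_comm
    _ = ∑ d ∈ Finset.range n, 1 :=
        Finset.sum_congr rfl fun d hd => G.cell c d hc (Finset.mem_range.1 hd)
    _ = n := by simp

theorem Grid.sum_a {n m : ℕ} (G : Grid n m) :
    ∑ i, G.a i = ∑ c ∈ Finset.range n, ∑ i, G.α i c := by
  rw [Finset.sum_comm]
  exact Finset.sum_congr rfl fun i _ => (G.sum_α i).symm

/-- the area identity -/
theorem Grid.area {n m : ℕ} (G : Grid n m) : ∑ i, G.a i * G.b i = n * n := by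
  calc ∑ i, G.a i * G.b i = ∑ i, ∑ c ∈ Finset.range n, G.α i c * G.b i := by
        refine Finset.sum_congr rfl fun i _ => ?_
        rw [← Finset.sum_mul, G.sum_α i]
    _ = ∑ c ∈ Finset.range n, ∑ i, G.α i c * G.b i := Finset.sum_comm
    _ = ∑ c ∈ Finset.range n, n :=
        Finset.sum_congr rfl fun c hc => G.column c (Finset.mem_range.1 hc)
    _ = n * n := by simp

/-- heights are at most `n` -/
theorem Grid.b_le {n m : ℕ} (G : Grid n m) (i : Fin m) : G.b i ≤ n := by
  rw [← G.sum_β i]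
  calc ∑ d ∈ Finset.range n, G.β i d ≤ ∑ d ∈ Finset.range n, 1 :=
        Finset.sum_le_sum fun d _ => G.β_le i d
    _ = n := by simp

theorem Grid.n_le_sum_b {n m : ℕ} (G : Grid n m) (hn : 0 < n) : n ≤ ∑ i, G.b i := by
  calc n = ∑ i, G.α i 0 * G.b i := (G.column 0 hn).symm
    _ ≤ ∑ i, G.b i := by
        refine Finset.sum_le_sum fun i _ => ?_
        calc G.α i 0 * G.b i ≤ 1 * G.b i := Nat.mul_le_mul_right _ (G.α_le i 0)
          _ = G.b i := one_mul _

/-- if no tile has full height, every column meets two tiles -/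
theorem Grid.two_n_le {n m : ℕ} (G : Grid n m) (h : ∀ i, G.b i ≠ n) :
    2 * n ≤ ∑ i, G.a i := by
  rw [G.sum_a]
  have key : ∀ c ∈ Finset.range n, 2 ≤ ∑ i, G.α i c := by
    intro c hc
    have hc' := Finset.mem_range.1 hc
    have h1 := G.column c hc'
    by_contra hlt
    have hlt' : ∑ i, G.α i c ≤ 1 := by omega
    have h2 : ∑ i, G.α i c * G.b i ≤ ∑ i, G.α i c * (n - 1) := by
      refine Finset.sum_le_sum fun i _ => Nat.mul_le_mul_left _ ?_
      have := G.b_le i
      have := h i
      omega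
    rw [← Finset.sum_mul] at h2
    have h3 : (∑ i, G.α i c) * (n - 1) ≤ 1 * (n - 1) := Nat.mul_le_mul_right _ hlt'
    omega
  calc 2 * n = ∑ c ∈ Finset.range n, 2 := by simp [mul_comm]
    _ ≤ _ := Finset.sum_le_sum key

/-! ### Grids with a tile of full width -/

theorem Grid.α_full {n m : ℕ} (G : Grid n m) {i : Fin m} (h : G.a i = n) {c : ℕ} (hc : c < n) :
    G.α i c = 1 := by
  by_contra hne
  have h0 : G.α i c = 0 := by
    have := G.α_le i c
    omega
  have h1 := G.sum_α i
  have hlt : ∑ c ∈ Finset.range n, G.α i c < ∑ c ∈ Finset.range n, 1 :=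
    Finset.sum_lt_sum (fun c _ => G.α_le i c) ⟨c, Finset.mem_range.2 hc, by omega⟩
  simp at hlt
  omega

theorem Grid.column_erase {n m : ℕ} (G : Grid n m) {i₀ : Fin m} (h : G.a i₀ = n) {c : ℕ}
    (hc : c < n) : ∑ i ∈ Finset.univ.erase i₀, G.α i c * G.b i = n - G.b i₀ := by
  have h1 := G.column c hc
  rw [← Finset.add_sum_erase _ _ (Finset.mem_univ i₀), G.α_full h hc, one_mul] at h1
  omega

theorem Grid.b_le_of_full {n m : ℕ} (G : Grid n m) {i₀ : Fin m} (h : G.a i₀ = n) {i : Fin m}
    (hi : i ≠ i₀) : G.b i ≤ n - G.b i₀ := by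
  have hpos := G.a_pos i
  rw [← G.sum_α i] at hpos
  obtain ⟨c, hc, hcpos⟩ := Finset.exists_ne_zero_of_sum_ne_zero hpos.ne'
  have hc1 : G.α i c = 1 := by
    have := G.α_le i c
    omega
  rw [← G.column_erase h (Finset.mem_range.1 hc)]
  calc G.b i = G.α i c * G.b i := by rw [hc1, one_mul]
    _ ≤ _ := Finset.single_le_sum (f := fun i => G.α i c * G.b i) (fun _ _ => Nat.zero_le _)
        (Finset.mem_erase.2 ⟨hi, Finset.mem_univ i⟩)

theorem Grid.area_erase {n m : ℕ} (G : Grid n m) {i₀ : Fin m} (h : G.a i₀ = n) :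
    ∑ i ∈ Finset.univ.erase i₀, G.a i * G.b i = n * (n - G.b i₀) := by
  have h1 := G.area
  rw [← Finset.add_sum_erase _ _ (Finset.mem_univ i₀), h] at h1
  rw [Nat.mul_sub]
  omega

theorem Grid.three_n_le {n m : ℕ} (G : Grid n m) {i₀ : Fin m} (h : G.a i₀ = n)
    (hH : 0 < n - G.b i₀) (hb : ∀ i, i ≠ i₀ → G.b i ≠ n - G.b i₀) :
    3 * n ≤ ∑ i, G.a i := by
  rw [G.sum_a]
  have key : ∀ c ∈ Finset.range n, 3 ≤ ∑ i, G.α i c := by
    intro c hc
    have hc' := Finset.mem_range.1 hc
    have h1 := G.column_erase h hc'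
    rw [← Finset.add_sum_erase _ _ (Finset.mem_univ i₀), G.α_full h hc']
    by_contra hlt
    have hlt' : ∑ i ∈ Finset.univ.erase i₀, G.α i c ≤ 1 := by omega
    have h2 : ∑ i ∈ Finset.univ.erase i₀, G.α i c * G.b i ≤
        ∑ i ∈ Finset.univ.erase i₀, G.α i c * (n - G.b i₀ - 1) := by
      refine Finset.sum_le_sum fun i hi => Nat.mul_le_mul_left _ ?_
      have hi' := Finset.ne_of_mem_erase hi
      have := G.b_le_of_full h hi'
      have := hb i hi'
      omega
    rw [← Finset.sum_mul] at h2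
    have h3 : (∑ i ∈ Finset.univ.erase i₀, G.α i c) * (n - G.b i₀ - 1) ≤
        1 * (n - G.b i₀ - 1) := Nat.mul_le_mul_right _ hlt'
    omega
  calc 3 * n = ∑ c ∈ Finset.range n, 3 := by simp [mul_comm]
    _ ≤ _ := Finset.sum_le_sum key

/-! ### Arithmetic -/

theorem triangle_le_sum (t : Finset ℕ) (h : ∀ x ∈ t, 0 < x) :
    t.card * (t.card + 1) ≤ 2 * ∑ x ∈ t, x := by
  induction t using Finset.induction_on_max with
  | empty => simp
  | insert a s hlt ih =>
    have hna : a ∉ s := fun ha => lt_irrefl _ (hlt a ha)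
    have hcard : s.card + 1 ≤ a := by
      have hsub : s ⊆ Finset.Ioo 0 a := fun x hx =>
        Finset.mem_Ioo.2 ⟨h x (Finset.mem_insert_of_mem hx), hlt x hx⟩
      have h1 := Finset.card_le_card hsub
      rw [Nat.card_Ioo] at h1
      have h2 := h a (Finset.mem_insert_self a s)
      omega
    have ih' := ih fun x hx => h x (Finset.mem_insert_of_mem hx)
    rw [Finset.card_insert_of_notMem hna, Finset.sum_insert hna]
    nlinarith

theorem triangle_le_sum_of_injOn {ι : Type*} [DecidableEq ι] (s : Finset ι) (f : ι → ℕ)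
    (hf : Set.InjOn f s) (h : ∀ x ∈ s, 0 < f x) :
    s.card * (s.card + 1) ≤ 2 * ∑ x ∈ s, f x := by
  have h1 := triangle_le_sum (s.image f) (by
    intro x hx
    obtain ⟨y, hy, rfl⟩ := Finset.mem_image.1 hx
    exact h y hy)
  rw [Finset.card_image_of_injOn hf, Finset.sum_image hf] at h1
  exact h1

/-- The lower bound when some tile has full width. -/
theorem Grid.lower_of_full {n m : ℕ} (G : Grid n m)
    (hadm : Function.Injective fun i => s(G.a i, G.b i)) (i₀ : Fin m) (h₀ : G.a i₀ = n)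
    (hm : 6 ≤ m) (hn1 : 2 * (m - 2) ≤ n) (hn2 : n < (m - 1) * m / 2) :
    3 * n + 2 * m ≤ ∑ i, (G.a i + G.b i) + 4 := by
  classical
  obtain ⟨H, hH⟩ : ∃ H, H = n - G.b i₀ := ⟨_, rfl⟩
  have hb0 : G.b i₀ + H = n := by
    have := G.b_le i₀
    omega
  have hcard : (Finset.univ.erase i₀).card = m - 1 := by
    rw [Finset.card_erase_of_mem (Finset.mem_univ _), Finset.card_univ, Fintype.card_fin]
  have harea := G.area_erase h₀
  rw [← hH] at harea
  have hble : ∀ i ∈ Finset.univ.erase i₀, G.b i ≤ H := by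
    intro i hi
    rw [hH]
    exact G.b_le_of_full h₀ (Finset.ne_of_mem_erase hi)
  have htot : ∑ i, (G.a i + G.b i) = n + G.b i₀ + ∑ i ∈ Finset.univ.erase i₀, (G.a i + G.b i) := by
    rw [← Finset.add_sum_erase _ _ (Finset.mem_univ i₀), h₀]
  rcases Nat.lt_or_ge H 3 with hH3 | hH3
  · interval_cases H
    · -- `H = 0`
      exfalso
      rw [mul_zero] at harea
      have hne : (Finset.univ.erase i₀).Nonempty := by
        rw [← Finset.card_pos, hcard]
        omega
      obtain ⟨i, hi⟩ := hne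
      have h1 := (Finset.sum_eq_zero_iff.1 harea) i hi
      have h2 := G.a_pos i
      have h3 := G.b_pos i
      have h4 := Nat.mul_pos h2 h3
      omega
    · -- `H = 1`
      exfalso
      have hb1 : ∀ i ∈ Finset.univ.erase i₀, G.b i = 1 := by
        intro i hi
        have := hble i hi
        have := G.b_pos i
        omega
      have hinj : Set.InjOn G.a (Finset.univ.erase i₀ : Finset (Fin m)) := by
        intro i hi j hj hij
        apply hadm
        simp only
        rw [hb1 i hi, hb1 j hj, hij]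
      have h1 := triangle_le_sum_of_injOn _ G.a hinj (fun i _ => G.a_pos i)
      rw [hcard] at h1
      have h2 : ∑ i ∈ Finset.univ.erase i₀, G.a i = n := by
        rw [mul_one] at harea
        refine Eq.trans ?_ harea
        refine Finset.sum_congr rfl fun i hi => ?_
        rw [hb1 i hi, mul_one]
      rw [h2] at h1
      have h3 : m - 1 + 1 = m := by omega
      rw [h3] at h1
      omega
    · -- `H = 2`
      set A := (Finset.univ.erase i₀).filter fun i => G.b i = 1 with hA
      set B := (Finset.univ.erase i₀).filter fun i => ¬ G.b i = 1 with hB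
      have hbA : ∀ i ∈ A, G.b i = 1 := fun i hi => (Finset.mem_filter.1 hi).2
      have hbB : ∀ i ∈ B, G.b i = 2 := by
        intro i hi
        have h1 := (Finset.mem_filter.1 hi).2
        have h2 := hble i (Finset.mem_filter.1 hi).1
        have h3 := G.b_pos i
        omega
      have hAB : A.card + B.card = m - 1 := by
        rw [← hcard, hA, hB, Finset.card_filter_add_card_filter_not]
      have hinj : Set.InjOn G.a (A : Finset (Fin m)) := by
        intro i hi j hj hij
        apply hadm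
        simp only
        rw [hbA i hi, hbA j hj, hij]
      have h1 := triangle_le_sum_of_injOn A G.a hinj (fun i _ => G.a_pos i)
      have h2 : ∑ i ∈ A, G.a i + 2 * ∑ i ∈ B, G.a i = n * 2 := by
        refine Eq.trans ?_ harea
        rw [← Finset.sum_filter_add_sum_filter_not (Finset.univ.erase i₀) (fun i => G.b i = 1),
          ← hA, ← hB, Finset.mul_sum]
        congr 1
        · exact Finset.sum_congr rfl fun i hi => by rw [hbA i hi, mul_one]
        · exact Finset.sum_congr rfl fun i hi => by rw [hbB i hi, mul_comm]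
      have h3 : ∑ i ∈ Finset.univ.erase i₀, (G.a i + G.b i) =
          (∑ i ∈ A, G.a i + A.card) + (∑ i ∈ B, G.a i + 2 * B.card) := by
        rw [← Finset.sum_filter_add_sum_filter_not _ (fun i => G.b i = 1), ← hA, ← hB]
        congr 1
        · rw [Finset.card_eq_sum_ones, ← Finset.sum_add_distrib]
          exact Finset.sum_congr rfl fun i hi => by rw [hbA i hi]
        · rw [Finset.card_eq_sum_ones, Finset.mul_sum, ← Finset.sum_add_distrib]
          exact Finset.sum_congr rfl fun i hi => by rw [hbB i hi, mul_one]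
      rw [htot, h3]
      have h4 : 2 * A.card ≤ ∑ i ∈ A, G.a i := by
        rcases Nat.lt_or_ge A.card 3 with hK | hK
        · interval_cases A.card
          · omega
          · omega
          · omega
        · nlinarith
      omega
  · -- `H ≥ 3`
    by_cases hj : ∃ j₀, j₀ ≠ i₀ ∧ G.b j₀ = H
    · obtain ⟨j₀, hj₀, hbj⟩ := hj
      set S := (Finset.univ.erase i₀).erase j₀ with hS
      have hj₀mem : j₀ ∈ Finset.univ.erase i₀ := Finset.mem_erase.2 ⟨hj₀, Finset.mem_univ _⟩
      have hcS : S.card = m - 2 := by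
        rw [hS, Finset.card_erase_of_mem hj₀mem, hcard]
        omega
      have hg : ∀ i ∈ S, (1 : ℤ) - 2 * (if G.a i = 1 ∧ G.b i = 1 then 1 else 0) ≤
          H * ((G.a i : ℤ) + G.b i - 2) - G.a i * G.b i := by
        intro i hi
        have hble' : (G.b i : ℤ) ≤ H := by
          exact_mod_cast hble i (Finset.mem_of_mem_erase hi)
        have hap : (1 : ℤ) ≤ G.a i := by exact_mod_cast G.a_pos i
        have hbp : (1 : ℤ) ≤ G.b i := by exact_mod_cast G.b_pos i
        have hH3' : (3 : ℤ) ≤ H := by exact_mod_cast hH3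
        split_ifs with hif
        · rw [hif.1, hif.2]
          push_cast
          ring_nf
          exact le_refl _
        · rcases eq_or_lt_of_le hbp with hb1 | hb1
          · have ha2 : (2 : ℤ) ≤ G.a i := by
              have hne : G.a i ≠ 1 := by
                intro hne
                exact hif ⟨hne, by exact_mod_cast hb1.symm⟩
              have := G.a_pos i
              have : 2 ≤ G.a i := by omega
              exact_mod_cast this
            rw [← hb1]
            nlinarith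
          · have hb2 : (2 : ℤ) ≤ G.b i := hb1
            have h5 : 0 ≤ ((G.a i : ℤ) - 1) * (H - G.b i) :=
              mul_nonneg (by linarith) (by linarith)
            have h6 : 0 ≤ ((H : ℤ) - 1) * (G.b i - 2) := mul_nonneg (by linarith) (by linarith)
            nlinarith
      have hone : (∑ i ∈ S, if G.a i = 1 ∧ G.b i = 1 then (1 : ℤ) else 0) ≤ 1 := by
        rw [← Finset.sum_filter, Finset.sum_const, nsmul_eq_mul, mul_one]
        have : (S.filter fun i => G.a i = 1 ∧ G.b i = 1).card ≤ 1 := by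
          rw [Finset.card_le_one]
          intro i hi j hj
          have hi' := (Finset.mem_filter.1 hi).2
          have hj' := (Finset.mem_filter.1 hj).2
          apply hadm
          simp only
          rw [hi'.1, hi'.2, hj'.1, hj'.2]
        exact_mod_cast this
      have hsum := Finset.sum_le_sum hg
      rw [Finset.sum_sub_distrib, ← Finset.mul_sum, Finset.sum_const, nsmul_eq_mul, mul_one, hcS,
        Finset.sum_sub_distrib, ← Finset.mul_sum, Finset.sum_sub_distrib, Finset.sum_const,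
        nsmul_eq_mul, hcS] at hsum
      have h7 : (∑ i ∈ S, (G.a i : ℤ) * G.b i) + G.a j₀ * H = n * H := by
        have h8 : G.a j₀ * G.b j₀ + ∑ i ∈ S, G.a i * G.b i = n * H := by
          rw [hS, Finset.add_sum_erase _ (fun i => G.a i * G.b i) hj₀mem, harea]
        rw [hbj] at h8
        have h9 : ((G.a j₀ * H + ∑ i ∈ S, G.a i * G.b i : ℕ) : ℤ) = ((n * H : ℕ) : ℤ) := by
          rw [h8]
        push_cast at h9
        linarith
      have h10 : ∑ i ∈ Finset.univ.erase i₀, (G.a i + G.b i) =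
          (G.a j₀ + H) + ∑ i ∈ S, (G.a i + G.b i) := by
        rw [hS, ← hbj, Finset.add_sum_erase _ (fun i => G.a i + G.b i) hj₀mem]
      have h11 : ((∑ i ∈ S, (G.a i + G.b i) : ℕ) : ℤ) = ∑ i ∈ S, ((G.a i : ℤ) + G.b i) := by
        push_cast
        rfl
      have hm2 : ((m - 2 : ℕ) : ℤ) = (m : ℤ) - 2 := by
        rw [Nat.cast_sub (by omega)]
        rfl
      rw [hm2] at hsum
      set X : ℤ := ∑ i ∈ S, ((G.a i : ℤ) + G.b i) with hX
      have hH0 : (0 : ℤ) < H := by
        have : 0 < H := by omega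
        exact_mod_cast this
      have hm' : (6 : ℤ) ≤ m := by exact_mod_cast hm
      have h12 : 0 ≤ (H : ℤ) * (X - 2 * (m - 2) + G.a j₀ - n) := by nlinarith
      have h13 : 0 ≤ X - 2 * (m - 2) + G.a j₀ - n := by
        by_contra hneg
        have : (H : ℤ) * (X - 2 * (m - 2) + G.a j₀ - n) < 0 :=
          mul_neg_of_pos_of_neg hH0 (by linarith)
        linarith
      rw [htot, h10]
      zify
      rw [← hX]
      have hb0' : (G.b i₀ : ℤ) + H = n := by exact_mod_cast hb0
      linarith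
    · push Not at hj
      have h1 := G.three_n_le h₀ (by omega) (by
        intro i hi
        rw [← hH]
        exact hj i hi)
      have h2 := G.n_le_sum_b (by omega)
      rw [Finset.sum_add_distrib]
      omega

theorem Grid.lower {n m : ℕ} (G : Grid n m)
    (hadm : Function.Injective fun i => s(G.a i, G.b i))
    (hm : 6 ≤ m) (hn1 : 2 * (m - 2) ≤ n) (hn2 : n < (m - 1) * m / 2) :
    3 * n + 2 * m ≤ ∑ i, (G.a i + G.b i) + 4 := by
  by_cases h1 : ∃ i, G.a i = n
  · obtain ⟨i₀, h₀⟩ := h1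
    exact G.lower_of_full hadm i₀ h₀ hm hn1 hn2
  by_cases h2 : ∃ i, G.b i = n
  · obtain ⟨i₀, h₀⟩ := h2
    have h3 := G.swap.lower_of_full (by
      intro i j hij
      apply hadm
      simp only [Grid.swap] at hij ⊢
      rw [Sym2.eq_swap, hij, Sym2.eq_swap]) i₀ h₀ hm hn1 hn2
    simp only [Grid.swap] at h3
    calc 3 * n + 2 * m ≤ ∑ i, (G.b i + G.a i) + 4 := h3
      _ = ∑ i, (G.a i + G.b i) + 4 := by
        congr 1
        exact Finset.sum_congr rfl fun i _ => add_comm _ _
  · push Not at h1 h2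
    have h3 := G.two_n_le h2
    have h4 := G.swap.two_n_le h1
    simp only [Grid.swap] at h4
    rw [Finset.sum_add_distrib]
    omega

/-! ### The construction -/

/-- triangular numbers -/
def tri : ℕ → ℕ
  | 0 => 0
  | k + 1 => tri k + (k + 1)

theorem two_mul_tri (k : ℕ) : 2 * tri k = k * (k + 1) := by
  induction k with
  | zero => rfl
  | succ k ih =>
    rw [tri, Nat.mul_add, ih]
    ring

theorem tri_mono {j k : ℕ} (h : j ≤ k) : tri j ≤ tri k := by
  induction h with
  | refl => exact le_refl _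
  | step _ ih => exact ih.trans (by rw [tri]; omega)

/-- the abscissae of the vertical walls of the bottom strip -/
def wallX (n r j : ℕ) : ℕ := if j ≤ r then 2 + tri (j + 1) else n

/-- the widths of the height two tiles -/
def wid (n r j : ℕ) : ℕ := if j < r then j + 2 else n - 2 - tri (r + 1)

theorem wallX_succ {n r j : ℕ} (hn : tri (r + 2) + 2 ≤ n) (hj : j ≤ r) :
    wallX n r j + wid n r j = wallX n r (j + 1) := by
  unfold wallX wid
  have h1 : tri (r + 2) = tri (r + 1) + (r + 2) := rfl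
  have h2 : tri (j + 1 + 1) = tri (j + 1) + (j + 1 + 1) := rfl
  rcases Nat.lt_or_ge j r with h | h
  · rw [if_pos hj, if_pos h, if_pos (by omega), h2]
    omega
  · have hjr : j = r := by omega
    subst hjr
    rw [if_pos hj, if_neg (lt_irrefl _), if_neg (by omega)]
    omega

theorem wallX_mono {n r : ℕ} (hn : tri (r + 2) + 2 ≤ n) {i j : ℕ} (h : i ≤ j) (hj : j ≤ r + 1) :
    wallX n r i ≤ wallX n r j := by
  induction h with
  | refl => exact le_refl _
  | @step k hk ih =>
    refine (ih (by omega)).trans ?_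
    rw [← wallX_succ hn (show k ≤ r by omega)]
    omega

theorem exists_wall (X : ℕ → ℝ) (k : ℕ) (x : ℝ) (h0 : X 0 ≤ x) (h1 : x ≤ X (k + 1)) :
    ∃ j ≤ k, X j ≤ x ∧ x ≤ X (j + 1) := by
  induction k with
  | zero => exact ⟨0, le_refl _, h0, h1⟩
  | succ k ih =>
    rcases le_total x (X (k + 1)) with h | h
    · obtain ⟨j, hj, hj'⟩ := ih h
      exact ⟨j, by omega, hj'⟩
    · exact ⟨k + 1, le_refl _, h, h1⟩

/-- the four coordinates of tile `i` in the construction -/
def tx (n r : ℕ) : ℕ → ℕ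
  | 0 => 0
  | 1 => 0
  | 2 => 0
  | 3 => 1
  | j + 4 => wallX n r j

def ty : ℕ → ℕ
  | 0 => 2
  | 1 => 0
  | 2 => 1
  | 3 => 1
  | _ + 4 => 0

def ta (n r : ℕ) : ℕ → ℕ
  | 0 => n
  | 1 => 3
  | 2 => 1
  | 3 => 2
  | j + 4 => wid n r j

def tb (n : ℕ) : ℕ → ℕ
  | 0 => n - 2
  | 1 => 1
  | 2 => 1
  | 3 => 1
  | _ + 4 => 2

theorem wid_ge {n r j : ℕ} (hn : tri (r + 2) + 2 ≤ n) (hj : j ≤ r) : j + 2 ≤ wid n r j := by
  unfold wid
  have h1 : tri (r + 2) = tri (r + 1) + (r + 2) := rfl
  split_ifs <;> omega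

theorem wid_lt {n r i j : ℕ} (hn : tri (r + 2) + 2 ≤ n) (hij : i < j) (hj : j ≤ r) :
    wid n r i < wid n r j := by
  have h1 := wid_ge hn hj
  have h2 : wid n r i = i + 2 := if_pos (by omega)
  omega

theorem n_ge {n r : ℕ} (hn : tri (r + 2) + 2 ≤ n) : 5 ≤ n := by
  have h1 : tri 2 ≤ tri (r + 2) := tri_mono (by omega)
  have h2 : tri 2 = 3 := rfl
  omega

/-- the tiles are pairwise separated by a horizontal or a vertical line -/
theorem separated {n r i j : ℕ} (hn : tri (r + 2) + 2 ≤ n) (hij : i < j) (hj : j < r + 5) :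
    tx n r i + ta n r i ≤ tx n r j ∨ ty j + tb n j ≤ ty i ∨ ty i + tb n i ≤ ty j := by
  have hw0 : wallX n r 0 = 3 := by
    unfold wallX
    rw [if_pos (Nat.zero_le _)]
    rfl
  match i, j, hij, hj with
  | 0, 1, _, _ => exact Or.inr (Or.inl (by simp [ty, tb]))
  | 0, 2, _, _ => exact Or.inr (Or.inl (by simp [ty, tb]))
  | 0, 3, _, _ => exact Or.inr (Or.inl (by simp [ty, tb]))
  | 0, j + 4, _, _ => exact Or.inr (Or.inl (by simp [ty, tb]))
  | 1, 2, _, _ => exact Or.inr (Or.inr (by simp [ty, tb]))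
  | 1, 3, _, _ => exact Or.inr (Or.inr (by simp [ty, tb]))
  | 1, j + 4, _, hj =>
    refine Or.inl ?_
    have := wallX_mono hn (Nat.zero_le j) (by omega)
    simp only [tx, ta]
    omega
  | 2, 3, _, _ => exact Or.inl (by simp [tx, ta])
  | 2, j + 4, _, hj =>
    refine Or.inl ?_
    have := wallX_mono hn (Nat.zero_le j) (by omega)
    simp only [tx, ta]
    omega
  | 3, j + 4, _, hj =>
    refine Or.inl ?_
    have := wallX_mono hn (Nat.zero_le j) (by omega)
    simp only [tx, ta]
    omega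
  | i + 4, j + 4, hij, hj =>
    refine Or.inl ?_
    have h1 := wallX_mono hn (show i + 1 ≤ j by omega) (by omega)
    have h2 := wallX_succ hn (show i ≤ r by omega)
    simp only [tx, ta]
    omega

theorem inside {n r i : ℕ} (hn : tri (r + 2) + 2 ≤ n) (hi : i < r + 5) :
    tx n r i + ta n r i ≤ n ∧ ty i + tb n i ≤ n := by
  have h5 := n_ge hn
  match i, hi with
  | 0, _ => exact ⟨by simp [tx, ta], by simp only [ty, tb]; omega⟩
  | 1, _ => exact ⟨by simp only [tx, ta]; omega, by simp only [ty, tb]; omega⟩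
  | 2, _ => exact ⟨by simp only [tx, ta]; omega, by simp only [ty, tb]; omega⟩
  | 3, _ => exact ⟨by simp only [tx, ta]; omega, by simp only [ty, tb]; omega⟩
  | j + 4, hi =>
    refine ⟨?_, by simp only [ty, tb]; omega⟩
    have h1 := wallX_mono hn (show j + 1 ≤ r + 1 by omega) (le_refl _)
    have h2 := wallX_succ hn (show j ≤ r by omega)
    have h3 : wallX n r (r + 1) = n := if_neg (by omega)
    simp only [tx, ta]
    omega

theorem side_pos {n r i : ℕ} (hn : tri (r + 2) + 2 ≤ n) (hi : i < r + 5) :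
    0 < ta n r i ∧ 0 < tb n i := by
  have h5 := n_ge hn
  match i, hi with
  | 0, _ => exact ⟨by simp only [ta]; omega, by simp only [tb]; omega⟩
  | 1, _ => exact ⟨by simp [ta], by simp [tb]⟩
  | 2, _ => exact ⟨by simp [ta], by simp [tb]⟩
  | 3, _ => exact ⟨by simp [ta], by simp [tb]⟩
  | j + 4, hi =>
    refine ⟨?_, by simp [tb]⟩
    have := wid_ge hn (show j ≤ r by omega)
    simp only [ta]
    omega

theorem shapes_ne {n r i j : ℕ} (hn : tri (r + 2) + 2 ≤ n) (hij : i < j) (hj : j < r + 5) :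
    s(ta n r i, tb n i) ≠ s(ta n r j, tb n j) := by
  have h5 := n_ge hn
  intro h
  rw [Sym2.eq_iff] at h
  match i, j, hij, hj, h with
  | 0, 1, _, _, h => simp only [ta, tb] at h; omega
  | 0, 2, _, _, h => simp only [ta, tb] at h; omega
  | 0, 3, _, _, h => simp only [ta, tb] at h; omega
  | 0, j + 4, _, hj, h => simp only [ta, tb] at h; omega
  | 1, 2, _, _, h => simp [ta, tb] at h
  | 1, 3, _, _, h => simp [ta, tb] at h
  | 1, j + 4, _, hj, h => simp only [ta, tb] at h; omega
  | 2, 3, _, _, h => simp [ta, tb] at h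
  | 2, j + 4, _, hj, h => simp only [ta, tb] at h; omega
  | 3, j + 4, _, hj, h =>
    have := wid_ge hn (show j ≤ r by omega)
    simp only [ta, tb] at h
    omega
  | i + 4, j + 4, hij, hj, h =>
    have := wid_lt hn (show i < j by omega) (by omega)
    simp only [ta, tb] at h
    omega

theorem covered {n r : ℕ} (hn : tri (r + 2) + 2 ≤ n) {x y : ℝ} (hx0 : 0 ≤ x) (hx1 : x ≤ n)
    (hy0 : 0 ≤ y) (hy1 : y ≤ n) :
    ∃ i < r + 5, ((tx n r i : ℝ) ≤ x ∧ x ≤ tx n r i + ta n r i) ∧
      ((ty i : ℝ) ≤ y ∧ y ≤ ty i + tb n i) := by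
  have h5 := n_ge hn
  rcases le_total 2 y with hy | hy
  · refine ⟨0, by omega, ?_, ?_⟩
    · simp only [tx, ta]
      constructor <;> push_cast <;> linarith
    · simp only [ty, tb]
      rw [Nat.cast_sub (by omega)]
      constructor <;> push_cast <;> linarith
  rcases le_total x 3 with hx | hx
  · rcases le_total y 1 with hy' | hy'
    · refine ⟨1, by omega, ?_, ?_⟩
      · simp only [tx, ta]
        constructor <;> push_cast <;> linarith
      · simp only [ty, tb]
        constructor <;> push_cast <;> linarith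
    · rcases le_total x 1 with hx' | hx'
      · refine ⟨2, by omega, ?_, ?_⟩
        · simp only [tx, ta]
          constructor <;> push_cast <;> linarith
        · simp only [ty, tb]
          constructor <;> push_cast <;> linarith
      · refine ⟨3, by omega, ?_, ?_⟩
        · simp only [tx, ta]
          constructor <;> push_cast <;> linarith
        · simp only [ty, tb]
          constructor <;> push_cast <;> linarith
  · have hw0 : wallX n r 0 = 3 := by
      unfold wallX
      rw [if_pos (Nat.zero_le _)]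
      rfl
    have hw1 : wallX n r (r + 1) = n := if_neg (by omega)
    obtain ⟨j, hj, hj1, hj2⟩ := exists_wall (fun j => (wallX n r j : ℝ)) r x
      (by rw [hw0]; exact_mod_cast hx) (by rw [hw1]; exact hx1)
    refine ⟨j + 4, by omega, ?_, ?_⟩
    · simp only [tx, ta]
      simp only [← wallX_succ hn hj] at hj2
      push_cast at hj2
      exact ⟨hj1, hj2⟩
    · simp only [ty, tb]
      constructor <;> push_cast <;> linarith

/-- the tiling -/
def theTiling {n r : ℕ} (hn : tri (r + 2) + 2 ≤ n) : Tiling n (r + 5) where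
  x := fun i => tx n r i
  y := fun i => ty i
  a := fun i => ta n r i
  b := fun i => tb n i
  a_pos := fun i => (side_pos hn i.2).1
  b_pos := fun i => (side_pos hn i.2).2
  cover := by
    ext ⟨x, y⟩
    simp only [Set.mem_iUnion, Set.mem_prod, Set.mem_Icc]
    constructor
    · rintro ⟨i, ⟨h1, h2⟩, ⟨h3, h4⟩⟩
      have h5 := inside hn i.2
      have h6 : ((tx n r i : ℕ) : ℝ) + (ta n r i : ℕ) ≤ n := by exact_mod_cast h5.1
      have h7 : ((ty i : ℕ) : ℝ) + (tb n i : ℕ) ≤ n := by exact_mod_cast h5.2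
      have h8 : (0 : ℝ) ≤ (tx n r i : ℕ) := by positivity
      have h9 : (0 : ℝ) ≤ (ty i : ℕ) := by positivity
      exact ⟨⟨by linarith, by linarith⟩, ⟨by linarith, by linarith⟩⟩
    · rintro ⟨⟨h1, h2⟩, ⟨h3, h4⟩⟩
      obtain ⟨i, hi, h⟩ := covered hn h1 h2 h3 h4
      exact ⟨⟨i, hi⟩, h⟩
  disj := by
    have key : ∀ i j : Fin (r + 5), i < j →
        Disjoint (interior (Set.Icc (tx n r i : ℝ) (tx n r i + (ta n r i : ℕ)) ×ˢ
            Set.Icc (ty i : ℝ) (ty i + (tb n i : ℕ))))
          (interior (Set.Icc (tx n r j : ℝ) (tx n r j + (ta n r j : ℕ)) ×ˢ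
            Set.Icc (ty j : ℝ) (ty j + (tb n j : ℕ)))) := by
      intro i j hij
      rw [interior_rect, interior_rect, Set.disjoint_left]
      rintro ⟨x, y⟩ ⟨⟨h1, h2⟩, ⟨h3, h4⟩⟩ ⟨⟨h5, h6⟩, ⟨h7, h8⟩⟩
      simp only at h1 h2 h3 h4 h5 h6 h7 h8
      rcases separated hn (show i.val < j.val from hij) j.2 with h | h | h
      · have h' : ((tx n r i : ℕ) : ℝ) + (ta n r i : ℕ) ≤ (tx n r j : ℕ) := by exact_mod_cast h
        linarith
      · have h' : ((ty j : ℕ) : ℝ) + (tb n j : ℕ) ≤ (ty i : ℕ) := by exact_mod_cast h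
        linarith
      · have h' : ((ty i : ℕ) : ℝ) + (tb n i : ℕ) ≤ (ty j : ℕ) := by exact_mod_cast h
        linarith
    intro i j hij
    rcases lt_or_gt_of_ne hij with h | h
    · exact key i j h
    · exact (key j i h).symm

theorem theTiling_admissible {n r : ℕ} (hn : tri (r + 2) + 2 ≤ n) :
    (theTiling hn).Admissible := by
  intro i j hij
  by_contra hne
  rcases lt_or_gt_of_ne hne with h | h
  · exact shapes_ne hn (show i.val < j.val from h) j.2 hij
  · exact shapes_ne hn (show j.val < i.val from h) i.2 hij.symm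

theorem sum_wid {n r : ℕ} (hn : tri (r + 2) + 2 ≤ n) :
    ∀ j, j ≤ r + 1 → 3 + ∑ i ∈ Finset.range j, wid n r i = wallX n r j := by
  intro j
  induction j with
  | zero =>
    intro _
    unfold wallX
    rw [if_pos (Nat.zero_le _)]
    rfl
  | succ j ih =>
    intro hj
    rw [Finset.sum_range_succ, ← add_assoc, ih (by omega), wallX_succ hn (by omega)]

theorem theTiling_wall {n r : ℕ} (hn : tri (r + 2) + 2 ≤ n) :
    (theTiling hn).wall = n + 2 * ((r + 5 : ℕ) - 2) := by
  have h5 := n_ge hn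
  unfold Tiling.wall
  have h1 : ∑ i, (((theTiling hn).a i : ℤ) + (theTiling hn).b i) =
      ((∑ i ∈ Finset.range (r + 5), (ta n r i + tb n i) : ℕ) : ℤ) := by
    rw [← Fin.sum_univ_eq_sum_range (fun i => ta n r i + tb n i)]
    push_cast
    rfl
  have h2 : ∑ i ∈ Finset.range (r + 5), (ta n r i + tb n i) =
      (n + (n - 2)) + (3 + 1) + (1 + 1) + (2 + 1) +
        ∑ j ∈ Finset.range (r + 1), (wid n r j + 2) := by
    rw [show r + 5 = (r + 1) + 1 + 1 + 1 + 1 by ring]
    rw [Finset.sum_range_succ', Finset.sum_range_succ', Finset.sum_range_succ',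
      Finset.sum_range_succ']
    simp only [ta, tb]
    ring
  have h3 := sum_wid hn (r + 1) (le_refl _)
  have h4 : wallX n r (r + 1) = n := if_neg (by omega)
  rw [h1, h2, Finset.sum_add_distrib, Finset.sum_const, Finset.card_range, smul_eq_mul]
  rw [h4] at h3
  have h6 : ∑ i ∈ Finset.range (r + 1), wid n r i = n - 3 := by omega
  rw [h6]
  push_cast [Nat.cast_sub (show 2 ≤ n by omega), Nat.cast_sub (show 3 ≤ n by omega)]
  ring

/-- **The minimal internal wall length in (and below) the middle regime.**  For `m ≥ 6` and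
`T (m-3) + 2 ≤ n < T (m-1)`, where `T j = j (j + 1) / 2`, the minimum of the internal wall length
over all admissible tilings of `[0,n]²` by `m` tiles exists and equals `n + 2 (m - 2)`. -/
theorem result (m n : ℕ) (hm : 6 ≤ m) (hn1 : (m - 3) * (m - 2) / 2 + 2 ≤ n)
    (hn2 : n < (m - 1) * m / 2) :
    IsLeast {W : ℤ | ∃ T : Tiling n m, T.Admissible ∧ T.wall = W} (n + 2 * (m - 2)) := by
  constructor
  · obtain ⟨r, rfl⟩ : ∃ r, m = r + 5 := ⟨m - 5, by omega⟩
    have hn : tri (r + 2) + 2 ≤ n := by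
      have h1 := two_mul_tri (r + 2)
      have h2 : (r + 5 - 3) * (r + 5 - 2) = (r + 2) * (r + 2 + 1) := by
        congr 1
      rw [h2] at hn1
      omega
    exact ⟨theTiling hn, theTiling_admissible hn, theTiling_wall hn⟩
  · rintro W ⟨T, hT, rfl⟩
    obtain ⟨G, hGa, hGb⟩ := T.exists_grid
    have hn3 : 2 * (m - 2) ≤ n := by
      obtain ⟨k, rfl⟩ : ∃ k, m = k + 6 := ⟨m - 6, by omega⟩
      have h1 : (k + 6 - 3) * (k + 6 - 2) = 2 * (2 * k + 6) + (k * k + 3 * k) := by
        have h2 : k + 6 - 3 = k + 3 := by omega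
        have h3 : k + 6 - 2 = k + 4 := by omega
        rw [h2, h3]
        ring
      rw [h1] at hn1
      omega
    have h := G.lower (by rw [hGa, hGb]; exact hT) hm hn3 hn2
    rw [hGa, hGb] at h
    unfold Tiling.wall
    have h1 : ∑ i, ((T.a i : ℤ) + T.b i) = ((∑ i, (T.a i + T.b i) : ℕ) : ℤ) := by
      push_cast
      rfl
    rw [h1]
    have h2 : ((3 * n + 2 * m : ℕ) : ℤ) ≤ ((∑ i, (T.a i + T.b i) + 4 : ℕ) : ℤ) := by
      exact_mod_cast h
    push_cast at h2 ⊢
    linarith

/-- The range of the posed question is contained in the range of `result`. -/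
theorem question_one (m n : ℕ) (hm : 7 ≤ m) (hn1 : (m - 2) * (m - 1) / 2 ≤ n)
    (hn2 : n < (m - 1) * m / 2) :
    IsLeast {W : ℤ | ∃ T : Tiling n m, T.Admissible ∧ T.wall = W} (n + 2 * (m - 2)) := by
  refine result m n (by omega) ?_ hn2
  obtain ⟨k, rfl⟩ : ∃ k, m = k + 7 := ⟨m - 7, by omega⟩
  have h1 : (k + 7 - 2) * (k + 7 - 1) = (k + 7 - 3) * (k + 7 - 2) + 2 * (k + 5) := by
    have h2 : k + 7 - 3 = k + 4 := by omega
    have h3 : k + 7 - 2 = k + 5 := by omega
    have h4 : k + 7 - 1 = k + 6 := by omega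
    rw [h2, h3, h4]
    ring
  omega

end Pool.Agent.Results.MP_88b750_co.MiddleRegime
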